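import Pool.Agent.H38.WT.Targets

set_option autoImplicit false

namespace Pool.Agent.H1.WT

open Pool.Agent.H38.WT

/-- the permutation of `Fin (n+1)` which fixes `x` and acts as `τ` on the rest -/
def ext {n : ℕ} (x : Fin (n + 1)) (τ : Equiv.Perm (Fin n)) : Equiv.Perm (Fin (n + 1)) :=
  ((finSuccEquiv' x).trans (Equiv.optionCongr τ)).trans (finSuccEquiv' x).symm

theorem ext_at {n : ℕ} (x : Fin (n + 1)) (τ : Equiv.Perm (Fin n)) : ext x τ x = x := by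
  simp [ext]

theorem ext_succAbove {n : ℕ} (x : Fin (n + 1)) (τ : Equiv.Perm (Fin n)) (a : Fin n) :
    ext x τ (x.succAbove a) = x.succAbove (τ a) := by
  simp [ext]

theorem pf_SD (h1 : T_SC) (h2 : T_REL) : T_SD := by
  intro n T τ x
  have hr : ∀ (σ : Equiv.Perm (Fin (n + 1))) (U : SimpleGraph (Fin (n + 1))),
      rel σ.symm (rel σ U) = U := fun σ U => (h2 _ U σ).2.2
  let σ := ext x τ
  let e0 : SimpleGraph (Fin (n + 1)) ≃ SimpleGraph (Fin (n + 1)) :=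
    ⟨rel σ, rel σ.symm, hr σ, hr σ.symm⟩
  let e : (SimpleGraph (Fin (n + 1)) × Fin n × Fin n) ≃
      (SimpleGraph (Fin (n + 1)) × Fin n × Fin n) :=
    Equiv.prodCongr e0 (Equiv.prodCongr τ τ)
  have hsc : ∀ (U : SimpleGraph (Fin (n + 1))) (i : Fin n),
      Disp1 (rel τ T) (rel σ U) x (τ i) ↔ Disp1 T U x i := fun U i =>
    h1 n T U x i τ σ (ext_at x τ) (ext_succAbove x τ)
  symm
  unfold Sm
  refine Nat.card_congr (Equiv.subtypeEquiv e fun p => ?_)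
  obtain ⟨U, i, i'⟩ := p
  change (U.IsTree ∧ i ≠ i' ∧ Disp1 T U x i ∧ Disp1 T U x i') ↔
    ((rel σ U).IsTree ∧ τ i ≠ τ i' ∧ Disp1 (rel τ T) (rel σ U) x (τ i) ∧
      Disp1 (rel τ T) (rel σ U) x (τ i'))
  rw [hsc, hsc, (h2 _ U σ).1, τ.injective.ne_iff]

end Pool.Agent.H1.WT
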