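import Pool.Agent.H38.WT.Targets

set_option autoImplicit false

namespace Pool.Agent.H1.WT

open Pool.Agent.H38.WT

theorem val_succAbove {n : ℕ} (x : Fin (n + 1)) (a : Fin n) :
    ((x.succAbove a : Fin (n + 1)) : ℕ) = if (a : ℕ) < x then (a : ℕ) else (a : ℕ) + 1 := by
  unfold Fin.succAbove
  split_ifs with h1 h2 h2
  · rfl
  · exact absurd h1 h2
  · exact absurd h2 h1
  · rfl

theorem adj_pI {n : ℕ} (a b : Fin n) :
    (pI n).Adj a b ↔ (a : ℕ) + 1 = b ∨ (b : ℕ) + 1 = a := Iff.rfl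

theorem disp_pI {n : ℕ} (x : Fin (n + 1)) (i : Fin n)
    (h : (pI (n + 1)).Adj x (x.succAbove i)) : Disp1 (pI n) (pI (n + 1)) x i := by
  refine ⟨h, fun a b hab => ?_⟩
  have hab' : (a : ℕ) ≠ b := fun e => hab (Fin.ext e)
  rw [adj_pI, val_succAbove] at h
  rw [adj_pI, adj_pI, adj_pI, adj_pI, val_succAbove, val_succAbove, Fin.ext_iff, Fin.ext_iff]
  split_ifs at h ⊢ <;> omega

theorem pf_SF (h : T_PT) : T_SF := by
  intro n hn x x' hx hxx'
  have hx' : (x : ℕ) < x' := hxx'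
  have hx2 : (x' : ℕ) < n + 1 := x'.2
  have ht : (pI (n + 1)).IsTree := (h (n + 1) (by omega)).1
  have h1 : Disp1 (pI n) (pI (n + 1)) x ⟨0, by omega⟩ := by
    refine disp_pI x _ ?_
    rw [adj_pI, val_succAbove]
    simp only
    split_ifs <;> omega
  have h2 : Disp1 (pI n) (pI (n + 1)) x' ⟨(x' : ℕ) - 1, by omega⟩ := by
    refine disp_pI x' _ ?_
    rw [adj_pI, val_succAbove]
    simp only
    split_ifs <;> omega
  unfold Pr
  have : Nonempty {p : SimpleGraph (Fin (n + 1)) × Fin n × Fin n //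
      p.1.IsTree ∧ Disp1 (pI n) p.1 x p.2.1 ∧ Disp1 (pI n) p.1 x' p.2.2} :=
    ⟨⟨(pI (n + 1), ⟨0, by omega⟩, ⟨(x' : ℕ) - 1, by omega⟩), ht, h1, h2⟩⟩
  exact Nat.card_pos

end Pool.Agent.H1.WT
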